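import Mathlib
import Pool.Agent.Lib.MP_79490a_al.Defs
import Pool.Agent.Lib.IZ64.Main

namespace Pool.Agent.Results.MP_79490a_al.Involutive

open Pool.Agent.Lib.MP_79490a_al

/-- The subvarieties of `IZ` satisfying `x'' ≈ x`, ordered by inclusion, form a copy of
`4 × K` with `K` an explicit subset of `3 × (ω + 3)`. -/
theorem result :
    Nonempty ({V : Set Alg // IsVariety V ∧ V ⊆ {A | A ∈ IZ ∧ ∀ x, A.neg (A.neg x) = x}} ≃o
      Fin 4 × {p : Fin 3 × Lex (ℕ ⊕ Fin 3) //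
        (∀ n, p.2 = toLex (Sum.inl n) → p.1 = 0 ∨ n % 3 = 1) ∧
          ∀ t, p.2 = toLex (Sum.inr t) → t = 0 ∨ p.1 = 2}) :=
  ⟨Pool.Agent.Lib.IZ64.iso⟩

end Pool.Agent.Results.MP_79490a_al.Involutive
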