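import Mathlib
import Pool.Agent.Lib.MP_79490a_al.Defs
import Pool.Agent.Lib.MP_79490a_al.Proof

namespace Pool.Agent.Results.MP_79490a_al.NoLatticeIdentity

open Pool.Agent.Lib.MP_79490a_al

universe u

/-- Every lattice identity `p ≈ q` that holds in the lattice of subvarieties of `IZ`
(meet = intersection, join = variety generated by the union) holds in every lattice. -/
theorem result (p q : LTerm)
    (h : ∀ V : ℕ → Set Alg, (∀ i, IsVariety (V i) ∧ V i ⊆ IZ) →
      p.eval (fun V₁ V₂ => generated (V₁ ∪ V₂)) (fun V₁ V₂ => V₁ ∩ V₂) V =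
        q.eval (fun V₁ V₂ => generated (V₁ ∪ V₂)) (fun V₁ V₂ => V₁ ∩ V₂) V)
    (L : Type u) [Lattice L] (a : ℕ → L) :
    p.eval (fun x y => x ⊔ y) (fun x y => x ⊓ y) a =
      q.eval (fun x y => x ⊔ y) (fun x y => x ⊓ y) a :=
  main p q h L a

end Pool.Agent.Results.MP_79490a_al.NoLatticeIdentity
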